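import Mathlib
import Pool.Agent.Zk90.Refl

/-!
# Precompact abelian groups with the Baire property are quotients of reflexive ones

Affirmative answer to Q1: every precompact (Hausdorff) abelian group `H` with the Baire property is a
quotient of a reflexive precompact abelian group `G` with the Baire property.

Idea of the proof.
* (`Zk90.TL`) Every infinite compact Hausdorff space `C` has a countable family of infinite subsets such
  that every continuous function on `C` has small oscillation on some member: tails of a convergent
  sequence if `C` has one, and otherwise the members of a countable `π`-base of a minimal closed subset
  which meets all members of a dyadic tree of closed sets.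
* (`Zk90.Polar`) Hence, by the theorem of Baire and since the polars of the neighbourhoods of the identity
  of a precompact group are finite, all compact subsets of the dual of a precompact group with the Baire
  property are finite (even for the topology of pointwise convergence).
* (`Zk90.Gen`) `G` is the subgroup of `(I → Circle) × H` generated by `(M ξ, h ξ)`, `ξ ∈ I`, where `I` is
  an inductive type which contains all sequences in `I` with labels, and `M` is an `I × I`-matrix all
  whose countable row patterns and countable column patterns are realised. All compact subsets of `G`
  are finite (again by the lemma of `Zk90.Polar`), and the projection to `H` is open.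
* (`Zk90.Baire`) `G` has the Baire property.
-/

set_option autoImplicit false

open Topology Pointwise

namespace Pool.Agent.Results.MP_329fc6_gt.BaireQuotient

universe u

/-- A topological group `G` is precompact (totally bounded): for every neighbourhood `U` of the identity
there is a finite set `F` with `F * U = G`. -/
def Precompact (G : Type u) [Group G] [TopologicalSpace G] : Prop :=
  ∀ U ∈ 𝓝 (1 : G), ∃ F : Set G, F.Finite ∧ F * U = Set.univ

/-- An abelian topological group `G` is reflexive: the evaluation map `g ↦ (χ ↦ χ g)` is a topological
isomorphism of `G` onto the dual of its dual. Here `PontryaginDual G` is Mathlib's group of continuous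
homomorphisms from `G` to the circle with the compact-open topology. -/
def Reflexive (G : Type u) [CommGroup G] [TopologicalSpace G] : Prop :=
  ∃ α : G ≃ₜ* PontryaginDual (PontryaginDual G), ∀ (g : G) (χ : PontryaginDual G), α g χ = χ g

/-- **Affirmative answer to Q1.** Every precompact Hausdorff abelian group `H` with the Baire property is
topologically isomorphic to a quotient `G ⧸ N`, `N` a closed subgroup, of a precompact Hausdorff abelian
group `G` which has the Baire property and is reflexive. Moreover all compact subsets of `G` are finite. -/
theorem result (H : Type u) [CommGroup H] [TopologicalSpace H] [IsTopologicalGroup H] [T2Space H]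
    (hp : Precompact H) (hB : BaireSpace H) :
    ∃ (G : Type u) (_ : CommGroup G) (_ : TopologicalSpace G) (_ : IsTopologicalGroup G)
      (_ : T2Space G), Precompact G ∧ BaireSpace G ∧ Reflexive G ∧
      (∀ K : Set G, IsCompact K → K.Finite) ∧
      ∃ N : Subgroup G, IsClosed (N : Set G) ∧ Nonempty ((G ⧸ N) ≃ₜ* H) :=
  Pool.Agent.Zk90.main (H := H) hp

end Pool.Agent.Results.MP_329fc6_gt.BaireQuotient
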